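import Mathlib

/-!
# The parameter `ν` of Colin de Verdière (MP_83e192_co)
-/

namespace Pool.Agent.NuDelta

variable {V : Type} [Fintype V] [DecidableEq V]

/-- `A` is a real symmetric matrix with the graph `G`: for `i ≠ j` the entry `A i j` is not zero iff
`ij` is an edge of `G`; the diagonal is unrestricted. -/
def HasGraph (A : Matrix V V ℝ) (G : SimpleGraph V) : Prop :=
  A.IsSymm ∧ ∀ i j, i ≠ j → (A i j ≠ 0 ↔ G.Adj i j)

/-- The Strong Arnold Hypothesis: the only symmetric matrix `X` with `A X = 0` whose diagonal
entries and whose entries at the edges of `G` are zero is `X = 0`. -/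
def SAH (A : Matrix V V ℝ) (G : SimpleGraph V) : Prop :=
  ∀ X : Matrix V V ℝ, X.IsSymm → (∀ i, X i i = 0) → (∀ i j, G.Adj i j → X i j = 0) →
    A * X = 0 → X = 0

/-- The nullity: the dimension of the kernel. -/
noncomputable def nullity (A : Matrix V V ℝ) : ℕ := Module.finrank ℝ (LinearMap.ker A.mulVecLin)

/-- The nullities of the positive semidefinite matrices with the graph `G` which satisfy the Strong
Arnold Hypothesis. Its greatest element is `ν(G)`. -/
def NuSet (G : SimpleGraph V) : Set ℕ :=
  {k | ∃ A : Matrix V V ℝ, HasGraph A G ∧ A.PosSemidef ∧ SAH A G ∧ nullity A = k}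

end Pool.Agent.NuDelta
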